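import Pool.Agent.Helper74.CW.Defs

/-! Module DUAL of the project CW (MP_526055_co). -/

namespace Pool.Agent.Helper74.CW

open Module Polynomial

variable {F K : Type*} [Field F] [Field K] [Algebra F K]

private noncomputable def dualB (l : K →ₗ[F] F) : LinearMap.BilinForm F K :=
  (LinearMap.mul F K).compr₂ l

private theorem dualB_apply (l : K →ₗ[F] F) (x y : K) : dualB l x y = l (x * y) := rfl

private theorem dualB_symm (l : K →ₗ[F] F) (x y : K) : dualB l x y = dualB l y x := by
  rw [dualB_apply, dualB_apply, mul_comm]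

private theorem dualB_refl (l : K →ₗ[F] F) : (dualB l).IsRefl := by
  intro x y h
  rw [dualB_symm]
  exact h

private theorem dualB_nondeg {l : K →ₗ[F] F} (hl : l 1 ≠ 0) : (dualB l).Nondegenerate := by
  have key : ∀ x : K, (∀ y, dualB l x y = 0) → x = 0 := by
    intro x hx
    by_contra h
    apply hl
    have := hx x⁻¹
    rw [dualB_apply, mul_inv_cancel₀ h] at this
    exact this
  refine ⟨key, fun y hy => key y (fun x => ?_)⟩
  rw [dualB_symm]
  exact hy x

private theorem dual_sc_inf (ξ : K) (hξ : ξ ≠ 0) (A B : Submodule F K) :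
    finrank F ↥(A ⊓ sc ξ⁻¹ B) = finrank F ↥(B ⊓ sc ξ A) := by
  have hinj : Function.Injective (LinearMap.mulLeft F ξ) := by
    intro x y h
    exact mul_left_cancel₀ hξ h
  have e : (A ⊓ sc ξ⁻¹ B).map (LinearMap.mulLeft F ξ) = B ⊓ sc ξ A := by
    ext x
    constructor
    · rintro ⟨a, ⟨ha, b, hb, hab⟩, rfl⟩
      rw [LinearMap.mulLeft_apply] at hab
      rw [LinearMap.mulLeft_apply]
      refine ⟨?_, a, ha, rfl⟩
      rw [← hab, ← mul_assoc, mul_inv_cancel₀ hξ, one_mul]
      exact hb
    · rintro ⟨hb, a, ha, hax⟩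
      rw [LinearMap.mulLeft_apply] at hax
      refine ⟨a, ⟨ha, x, hb, ?_⟩, hax⟩
      rw [LinearMap.mulLeft_apply, ← hax, ← mul_assoc, inv_mul_cancel₀ hξ, one_mul]
  rw [← e]
  exact ((Submodule.equivMapOfInjective _ hinj _).finrank_eq)

theorem exists_perp [FiniteDimensional F K] : ∃ φ : Submodule F K → Submodule F K,
    (∀ S, φ (φ S) = S) ∧ (∀ S, finrank F (φ S) + finrank F S = finrank F K) ∧
    ∀ (S T : Submodule F K) (ξ : K), ξ ≠ 0 → finrank F ↥(S ⊓ sc ξ T) + finrank F K =
      finrank F S + finrank F T + finrank F ↥(φ T ⊓ sc ξ (φ S)) := by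
  obtain ⟨l, hl⟩ : ∃ l : K →ₗ[F] F, l 1 ≠ 0 := by
    by_contra h
    push Not at h
    exact one_ne_zero ((Module.forall_dual_apply_eq_zero_iff F (1 : K)).1 h)
  have hnd := dualB_nondeg hl
  have hr := dualB_refl l
  have hoo : ∀ S : Submodule F K, (dualB l).orthogonal ((dualB l).orthogonal S) = S :=
    fun S => LinearMap.BilinForm.orthogonal_orthogonal hnd hr S
  have hdim : ∀ S : Submodule F K, finrank F ((dualB l).orthogonal S) + finrank F S =
      finrank F K := by
    intro S
    have := LinearMap.BilinForm.finrank_orthogonal hnd S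
    have h2 := Submodule.finrank_le S
    omega
  refine ⟨fun S => (dualB l).orthogonal S, hoo, hdim, ?_⟩
  intro S T ξ hξ
  have hsc : (dualB l).orthogonal (sc ξ T) = sc ξ⁻¹ ((dualB l).orthogonal T) := by
    ext x
    rw [LinearMap.BilinForm.mem_orthogonal_iff]
    constructor
    · intro h
      refine ⟨ξ * x, ?_, ?_⟩
      · show ξ * x ∈ (dualB l).orthogonal T
        rw [LinearMap.BilinForm.mem_orthogonal_iff]
        intro t ht
        have := h (ξ * t) ⟨t, ht, rfl⟩
        rw [dualB_apply] at this ⊢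
        rw [← this]
        congr 1
        ring
      · rw [LinearMap.mulLeft_apply, ← mul_assoc, inv_mul_cancel₀ hξ, one_mul]
    · rintro ⟨y, hy, rfl⟩ n ⟨t, ht, rfl⟩
      have hy' : y ∈ (dualB l).orthogonal T := hy
      rw [LinearMap.BilinForm.mem_orthogonal_iff] at hy'
      have := hy' t ht
      rw [dualB_apply] at this ⊢
      rw [LinearMap.mulLeft_apply, LinearMap.mulLeft_apply, ← this]
      congr 1
      field_simp
  have hinf : (dualB l).orthogonal ((dualB l).orthogonal S ⊔ (dualB l).orthogonal (sc ξ T)) =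
      S ⊓ sc ξ T := by
    conv_rhs => rw [← hoo S, ← hoo (sc ξ T)]
    ext x
    rw [Submodule.mem_inf]
    constructor
    · intro h
      exact ⟨LinearMap.BilinForm.orthogonal_le le_sup_left h,
        LinearMap.BilinForm.orthogonal_le le_sup_right h⟩
    · rintro ⟨h1, h2⟩
      rw [LinearMap.BilinForm.mem_orthogonal_iff] at h1 h2 ⊢
      intro n hn
      obtain ⟨y, hy, z, hz, rfl⟩ := Submodule.mem_sup.1 hn
      have a := h1 y hy
      have b := h2 z hz
      rw [map_add, LinearMap.add_apply, a, b, add_zero]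
  have h1 := hdim ((dualB l).orthogonal S ⊔ (dualB l).orthogonal (sc ξ T))
  rw [hinf] at h1
  have h2 := Submodule.finrank_sup_add_finrank_inf_eq ((dualB l).orthogonal S)
    ((dualB l).orthogonal (sc ξ T))
  have h3 := hdim S
  have h4 := hdim (sc ξ T)
  have h5 : finrank F (sc ξ T) = finrank F T := by
    unfold sc
    exact ((Submodule.equivMapOfInjective (LinearMap.mulLeft F ξ)
      (fun x y h => mul_left_cancel₀ hξ h) _).finrank_eq).symm
  have h6 : finrank F ↥((dualB l).orthogonal S ⊓ (dualB l).orthogonal (sc ξ T)) =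
      finrank F ↥((dualB l).orthogonal T ⊓ sc ξ ((dualB l).orthogonal S)) := by
    rw [hsc]
    exact dual_sc_inf ξ hξ _ _
  show finrank F ↥(S ⊓ sc ξ T) + finrank F K = finrank F S + finrank F T +
    finrank F ↥((dualB l).orthogonal T ⊓ sc ξ ((dualB l).orthogonal S))
  omega

end Pool.Agent.Helper74.CW
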