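import Pool.Agent.Helper74.CW.Defs

/-! Module TWO of the project CW (MP_526055_co). -/

namespace Pool.Agent.Helper74.CW

open Module Polynomial

variable {F K : Type*} [Field F] [Field K] [Algebra F K]

private theorem two_mem_sc {w : K} (hw : w ≠ 0) (S : Submodule F K) (x : K) :
    x ∈ sc w⁻¹ S ↔ w * x ∈ S := by
  constructor
  · rintro ⟨s, hs, rfl⟩
    rw [LinearMap.mulLeft_apply, ← mul_assoc, mul_inv_cancel₀ hw, one_mul]
    exact hs
  · intro h
    refine ⟨w * x, h, ?_⟩
    rw [LinearMap.mulLeft_apply, ← mul_assoc, inv_mul_cancel₀ hw, one_mul]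

private theorem two_finrank_sc {w : K} (hw : w ≠ 0) (S : Submodule F K) :
    finrank F (sc w S) = finrank F S := by
  unfold sc
  exact ((Submodule.equivMapOfInjective (LinearMap.mulLeft F w)
      (fun x y h => mul_left_cancel₀ hw h) _).finrank_eq).symm

private theorem two_colon_span (S : Submodule F K) (u v : K) (x : K) :
    x ∈ colon S (Submodule.span F {u, v}) ↔ x * u ∈ S ∧ x * v ∈ S := by
  constructor
  · intro h
    exact ⟨h u (Submodule.subset_span (by simp)), h v (Submodule.subset_span (by simp))⟩
  · rintro ⟨h1, h2⟩ t ht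
    obtain ⟨a, b, rfl⟩ := Submodule.mem_span_pair.1 ht
    rw [mul_add, mul_smul_comm, mul_smul_comm]
    exact S.add_mem (S.smul_mem _ h1) (S.smul_mem _ h2)

/-- the stabilizer of `S` -/
private def twoStab (S : Submodule F K) : Subalgebra F K where
  carrier := {x | ∀ y ∈ S, x * y ∈ S}
  mul_mem' := by
    intro a b ha hb y hy
    rw [mul_assoc]
    exact ha _ (hb y hy)
  one_mem' := by
    intro y hy
    rwa [one_mul]
  add_mem' := by
    intro a b ha hb y hy
    rw [add_mul]
    exact S.add_mem (ha y hy) (hb y hy)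
  zero_mem' := by
    intro y _
    rw [zero_mul]
    exact S.zero_mem
  algebraMap_mem' := by
    intro r y hy
    rw [← Algebra.smul_def]
    exact S.smul_mem _ hy

private theorem two_not_coprime [FiniteDimensional F K] (S : Submodule F K) {ρ : K}
    (hρ : ρ ∉ Set.range (algebraMap F K)) (h : ∀ y ∈ S, ρ * y ∈ S) :
    ¬ Nat.Coprime (finrank F K) (finrank F S) := by
  intro hco
  let L := IntermediateField.adjoin F {ρ}
  have hL : ∀ x ∈ L, ∀ y ∈ S, x * y ∈ S := by
    intro x hx
    have h1 : x ∈ L.toSubalgebra := hx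
    rw [IntermediateField.adjoin_simple_toSubalgebra_of_isAlgebraic
      (Algebra.IsAlgebraic.isAlgebraic ρ)] at h1
    have h2 : Algebra.adjoin F {ρ} ≤ twoStab S := by
      rw [Algebra.adjoin_le_iff]
      intro z hz
      rw [Set.mem_singleton_iff] at hz
      subst hz
      exact h
    exact h2 h1
  let S' : Submodule L K :=
    { carrier := S
      add_mem' := fun ha hb => S.add_mem ha hb
      zero_mem' := S.zero_mem
      smul_mem' := fun c x hx => hL c c.2 x hx }
  have e1 : finrank F L * finrank L S' = finrank F S' := Module.finrank_mul_finrank F L S'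
  have e2 : finrank F S' = finrank F S := rfl
  have e3 : finrank F L * finrank L K = finrank F K := Module.finrank_mul_finrank F L K
  have d1 : finrank F L ∣ finrank F S := ⟨_, by rw [← e2, e1]⟩
  have d2 : finrank F L ∣ finrank F K := ⟨_, e3.symm⟩
  have d3 : finrank F L = 1 := Nat.eq_one_of_dvd_coprimes hco d2 d1
  rw [IntermediateField.finrank_eq_one_iff] at d3
  have h4 : ρ ∈ L := IntermediateField.mem_adjoin_simple_self F ρ
  rw [d3, IntermediateField.mem_bot] at h4
  exact hρ h4

theorem two_range [FiniteDimensional F K] (S T : Submodule F K) (hT : finrank F T = 2) :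
    2 * finrank F S ≤ finrank F K + finrank F (colon S T) ∧
    (finrank F S = 0 ∨ finrank F (colon S T) < finrank F S ∨
      (finrank F (colon S T) = finrank F S ∧ ¬ Nat.Coprime (finrank F K) (finrank F S))) := by
  let b : Basis (Fin 2) F T := Module.finBasisOfFinrankEq F T hT
  set u : K := (b 0 : K) with hu_def
  set v : K := (b 1 : K) with hv_def
  have hlin : LinearIndependent F (fun i : Fin 2 => (b i : K)) := by
    have := b.linearIndependent.map' T.subtype (Submodule.ker_subtype T)
    exact this
  have hspan : T = Submodule.span F {u, v} := by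
    have h1 : (Submodule.span F (Set.range b)).map T.subtype = T := by
      rw [b.span_eq, Submodule.map_top, Submodule.range_subtype]
    rw [Submodule.map_span, ← Set.range_comp] at h1
    rw [← h1]
    congr 1
    ext x
    simp only [Set.mem_range, Fin.exists_fin_two, Set.mem_insert_iff, Set.mem_singleton_iff,
      Function.comp, Submodule.subtype_apply, eq_comm]
    rw [hu_def, hv_def]
  have hu : u ≠ 0 := hlin.ne_zero 0
  have hv : v ≠ 0 := hlin.ne_zero 1
  have hρ : u * v⁻¹ ∉ Set.range (algebraMap F K) := by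
    rintro ⟨c, hc⟩
    have h1 : u = c • v := by
      rw [Algebra.smul_def, hc, mul_assoc, inv_mul_cancel₀ hv, mul_one]
    rw [Fintype.linearIndependent_iff] at hlin
    have h2 := hlin ![1, -c] (by
      rw [Fin.sum_univ_two]
      simp only [Matrix.cons_val_zero, Matrix.cons_val_one]
      rw [← hu_def, ← hv_def, h1]
      simp) 0
    simp at h2
  have hcol : colon S T = sc u⁻¹ S ⊓ sc v⁻¹ S := by
    ext x
    rw [hspan, two_colon_span, Submodule.mem_inf, two_mem_sc hu, two_mem_sc hv, mul_comm u,
      mul_comm v]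
  have f1 := two_finrank_sc (inv_ne_zero hu) S
  have f2 := two_finrank_sc (inv_ne_zero hv) S
  have h1 := Submodule.finrank_sup_add_finrank_inf_eq (sc u⁻¹ S) (sc v⁻¹ S)
  have h2 := Submodule.finrank_le (sc u⁻¹ S ⊔ sc v⁻¹ S)
  have h3 : finrank F ↥(sc u⁻¹ S ⊓ sc v⁻¹ S) ≤ finrank F (sc u⁻¹ S) :=
    Submodule.finrank_mono inf_le_left
  rw [hcol]
  refine ⟨by omega, ?_⟩
  by_cases h0 : finrank F S = 0
  · exact Or.inl h0
  right
  rcases lt_or_eq_of_le h3 with h4 | h4
  · left; omega
  right
  refine ⟨by omega, ?_⟩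
  have h5 : sc u⁻¹ S ⊓ sc v⁻¹ S = sc u⁻¹ S := Submodule.eq_of_le_of_finrank_eq inf_le_left h4
  have h6 : sc u⁻¹ S ≤ sc v⁻¹ S := inf_eq_left.1 h5
  have h7 : sc u⁻¹ S = sc v⁻¹ S := Submodule.eq_of_le_of_finrank_eq h6 (by omega)
  refine two_not_coprime S hρ ?_
  intro y hy
  have h8 : v⁻¹ * y ∈ sc v⁻¹ S := ⟨y, hy, rfl⟩
  rw [← h7, two_mem_sc hu, ← mul_assoc] at h8
  exact h8

private theorem two_finrank_pair {ρ : K} (hρ : ρ ∉ Set.range (algebraMap F K)) :
    finrank F (Submodule.span F ({1, ρ} : Set K)) = 2 := by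
  have h1 : LinearIndependent F ![(1 : K), ρ] := by
    rw [LinearIndependent.pair_iff]
    intro s t h
    have ht : t = 0 := by
      by_contra ht
      apply hρ
      refine ⟨-(t⁻¹ * s), ?_⟩
      have h2 : ρ = t⁻¹ • (t • ρ) := by rw [smul_smul, inv_mul_cancel₀ ht, one_smul]
      have h3 : t • ρ = -(s • (1 : K)) := by linear_combination h
      rw [h2, h3, Algebra.algebraMap_eq_smul_one, neg_smul, smul_neg, smul_smul]
    subst ht
    rw [zero_smul, add_zero, smul_eq_zero] at h
    exact ⟨h.resolve_right one_ne_zero, rfl⟩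
  have h2 := finrank_span_eq_card h1
  have h3 : Set.range ![(1 : K), ρ] = {1, ρ} := by
    ext x
    simp only [Set.mem_range, Fin.exists_fin_two, Matrix.cons_val_zero, Matrix.cons_val_one,
      Set.mem_insert_iff, Set.mem_singleton_iff]
    exact ⟨fun h => h.imp Eq.symm Eq.symm, fun h => h.imp Eq.symm Eq.symm⟩
  rw [h3] at h2
  simpa using h2

/-- the index set -/
private def twoI (s j : ℕ) : Finset ℕ := Finset.range (j + 1) ∪
  (Finset.range (s - j - 1)).image (fun k => j + 2 * k + 2)

private theorem two_mem_I {s j i : ℕ} : i ∈ twoI s j ↔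
    i < j + 1 ∨ ∃ k, k < s - j - 1 ∧ j + 2 * k + 2 = i := by
  unfold twoI
  rw [Finset.mem_union, Finset.mem_range, Finset.mem_image]
  simp only [Finset.mem_range]

private theorem two_card_I {s j : ℕ} (h : j < s) : (twoI s j).card = s := by
  unfold twoI
  rw [Finset.card_union_of_disjoint, Finset.card_range, Finset.card_image_of_injective,
    Finset.card_range]
  · omega
  · intro a b hab
    simp only at hab
    omega
  · rw [Finset.disjoint_left]
    intro a ha hb
    rw [Finset.mem_range] at ha
    rw [Finset.mem_image] at hb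
    obtain ⟨k, _, hk⟩ := hb
    omega

private theorem two_exists_lt [Finite F] [FiniteDimensional F K] (hn : 2 ≤ finrank F K) {s j : ℕ}
    (h1 : 2 * s ≤ finrank F K + j) (h2 : j < s) : ∃ S T : Submodule F K,
      finrank F S = s ∧ finrank F T = 2 ∧ finrank F (colon S T) = j := by
  haveI : Finite K := Module.finite_of_finite F
  let pb : PowerBasis F K := Field.powerBasisOfFiniteOfSeparable F K
  set ρ : K := pb.gen with hρ_def
  have hdim : pb.dim = finrank F K := pb.finrank.symm
  set n : ℕ := finrank F K with hn_def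
  have hli : LinearIndependent F (fun i : Fin n => ρ ^ (i : ℕ)) := by
    have := pb.basis.linearIndependent
    rw [pb.coe_basis] at this
    have h3 := this.comp (Fin.cast hdim.symm) (Fin.cast_injective _)
    exact h3
  have hρ : ρ ∉ Set.range (algebraMap F K) := by
    rintro ⟨c, hc⟩
    rw [Fintype.linearIndependent_iff] at hli
    have h3 := hli (fun i => if (i : ℕ) = 1 then 1 else if (i : ℕ) = 0 then -c else 0) (by
      rw [Finset.sum_eq_add (⟨1, by omega⟩ : Fin n) (⟨0, by omega⟩ : Fin n)]
      · simp [← hc, Algebra.smul_def]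
      · simp
      · intro i _ hi
        have a : (i : ℕ) ≠ 1 := fun h => hi.1 (Fin.ext h)
        have b : (i : ℕ) ≠ 0 := fun h => hi.2 (Fin.ext h)
        rw [if_neg a, if_neg b, zero_smul]
      · intro h; exact absurd (Finset.mem_univ _) h
      · intro h; exact absurd (Finset.mem_univ _) h) ⟨1, by omega⟩
    simp at h3
  haveI : Nonempty (Fin n) := ⟨⟨0, by omega⟩⟩
  let b : Basis (Fin n) F K := basisOfLinearIndependentOfCardEqFinrank hli (by simp [hn_def])
  have hb : ∀ i : Fin n, b i = ρ ^ (i : ℕ) := by
    intro i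
    simp [b]
  let A : Set (Fin n) := {i | (i : ℕ) ∈ twoI s j}
  let S : Submodule F K := Submodule.span F (b '' A)
  have hA : Nat.card A = s := by
    rw [← two_card_I h2]
    have : (twoI s j).card = Nat.card (twoI s j : Set ℕ) := by
      rw [Nat.card_coe_set_eq, Set.ncard_coe_finset]
    rw [this]
    refine Nat.card_congr ⟨fun x => ⟨x.1, x.2⟩, fun y => ⟨⟨y.1, ?_⟩, y.2⟩, fun _ => rfl, fun _ => rfl⟩
    obtain ⟨y, hy⟩ := y
    have hy' : y ∈ twoI s j := hy
    rw [two_mem_I] at hy'
    simp only
    rcases hy' with h | ⟨k, hk, hk'⟩ <;> omega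
  have hfr : ∀ B : Set (Fin n), finrank F (Submodule.span F (b '' B)) = Nat.card B := by
    intro B
    classical
    have h3 : LinearIndependent F (fun i : B => b i) :=
      b.linearIndependent.comp _ Subtype.val_injective
    have h4 := finrank_span_eq_card h3
    rw [Set.image_eq_range, h4, Nat.card_eq_fintype_card]
  have hmem : ∀ (B : Set (Fin n)) (x : K), x ∈ Submodule.span F (b '' B) ↔
      ∀ i, b.repr x i ≠ 0 → i ∈ B := by
    intro B x
    rw [b.mem_span_image]
    constructor
    · intro h i hi
      exact h (Finsupp.mem_support_iff.2 hi)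
    · intro h i hi
      exact h i (Finsupp.mem_support_iff.1 hi)
  have hshift : ∀ x : K, (∀ i : Fin n, b.repr x i ≠ 0 → (i : ℕ) + 1 < n) →
      ∀ i : Fin n, ∀ h : (i : ℕ) + 1 < n, b.repr (x * ρ) ⟨i + 1, h⟩ = b.repr x i := by
    intro x hx i hi
    have e1 : x * ρ = ∑ k : Fin n, (b.repr x k) • (if h : (k : ℕ) + 1 < n then
        b ⟨k + 1, h⟩ else 0) := by
      conv_lhs => rw [← b.sum_repr x, Finset.sum_mul]
      refine Finset.sum_congr rfl fun k _ => ?_
      by_cases h0 : b.repr x k = 0
      · rw [h0, zero_smul, zero_smul, zero_mul]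
      · rw [dif_pos (hx k h0), hb, hb, smul_mul_assoc, pow_succ]
    rw [e1, map_sum, Finsupp.finsetSum_apply, Finset.sum_eq_single i]
    · rw [dif_pos hi, map_smul, b.repr_self, Finsupp.smul_apply, Finsupp.single_eq_same, smul_eq_mul,
        mul_one]
    · intro k _ hk
      by_cases h0 : (k : ℕ) + 1 < n
      · rw [dif_pos h0, map_smul, b.repr_self, Finsupp.smul_apply, Finsupp.single_eq_of_ne,
          smul_zero]
        intro h
        apply hk
        have := congrArg Fin.val h
        simp only at this
        exact Fin.ext (by omega)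
      · rw [dif_neg h0, smul_zero, map_zero, Finsupp.zero_apply]
    · intro h; exact absurd (Finset.mem_univ _) h
  refine ⟨S, Submodule.span F {1, ρ}, ?_, two_finrank_pair hρ, ?_⟩
  · rw [hfr, hA]
  · have hcol : colon S (Submodule.span F {1, ρ}) =
        Submodule.span F (b '' {i : Fin n | (i : ℕ) < j}) := by
      ext x
      rw [two_colon_span, mul_one, hmem, hmem, hmem]
      constructor
      · rintro ⟨h3, h4⟩ i hi
        have h5 : (i : ℕ) ∈ twoI s j := h3 i hi
        have h6 : ∀ i : Fin n, b.repr x i ≠ 0 → (i : ℕ) + 1 < n := by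
          intro k hk
          have h7 : (k : ℕ) ∈ twoI s j := h3 k hk
          rw [two_mem_I] at h7
          rcases h7 with h | ⟨l, hl, hl'⟩ <;> omega
        have h8 := hshift x h6 i (h6 i hi)
        have h9 : ((⟨i + 1, h6 i hi⟩ : Fin n) : ℕ) ∈ twoI s j := h4 _ (by rw [h8]; exact hi)
        rw [two_mem_I] at h5 h9
        simp only at h9
        show (i : ℕ) < j
        rcases h5 with h | ⟨l, hl, hl'⟩ <;> rcases h9 with h' | ⟨l', hl2, hl3⟩ <;> omega
      · intro h3
        have h6 : ∀ i : Fin n, b.repr x i ≠ 0 → (i : ℕ) + 1 < n := by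
          intro k hk
          have h7 : (k : ℕ) < j := h3 k hk
          omega
        refine ⟨fun i hi => ?_, fun i hi => ?_⟩
        · have h7 : (i : ℕ) < j := h3 i hi
          show (i : ℕ) ∈ twoI s j
          rw [two_mem_I]
          left; omega
        · show (i : ℕ) ∈ twoI s j
          rw [two_mem_I]
          left
          by_contra hc
          apply hi
          by_cases hi0 : (i : ℕ) = 0
          · omega
          · have h8 := hshift x h6 ⟨i - 1, by omega⟩ (by simp only; omega)
            have h9 : (⟨((⟨i - 1, by omega⟩ : Fin n) : ℕ) + 1, by simp only; omega⟩ : Fin n) = i :=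
              Fin.ext (by simp only; omega)
            rw [h9] at h8
            rw [h8]
            by_contra h10
            have h11 : (i : ℕ) - 1 < j := h3 _ h10
            omega
    rw [hcol, hfr]
    have h12 : Nat.card {i : Fin n | (i : ℕ) < j} = Nat.card (Fin j) :=
      Nat.card_congr ⟨fun x => ⟨x.1, x.2⟩, fun y => ⟨⟨y.1, by omega⟩, y.2⟩,
        fun _ => rfl, fun _ => rfl⟩
    rw [h12, Nat.card_fin]

private theorem two_exists_eq [Finite F] [FiniteDimensional F K] {s : ℕ}
    (hs' : s ≤ finrank F K) (h2 : ¬ Nat.Coprime (finrank F K) s) (hs : 1 ≤ s) :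
    ∃ S T : Submodule F K, finrank F S = s ∧ finrank F T = 2 ∧ finrank F (colon S T) = s := by
  haveI : Finite K := Module.finite_of_finite F
  obtain ⟨p, hp, hpn, hps⟩ := Nat.Prime.not_coprime_iff_dvd.1 h2
  obtain ⟨g, hg⟩ := (inferInstance : IsCyclic Gal(K/F)).exists_generator
  have hcard : Nat.card Gal(K/F) = finrank F K := IsGalois.card_aut_eq_finrank F K
  have hord : orderOf g = finrank F K := by
    rw [orderOf_eq_card_of_forall_mem_zpowers hg, hcard]
  have hord2 : orderOf (g ^ p) = finrank F K / p := by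
    rw [orderOf_pow_of_dvd hp.ne_zero (by rw [hord]; exact hpn), hord]
  let L := IntermediateField.fixedField (Subgroup.zpowers (g ^ p))
  have hL1 : finrank L K = finrank F K / p := by
    rw [← hord2, ← Nat.card_zpowers]
    exact IntermediateField.finrank_fixedField_eq_card _
  have hL2 : finrank F L * finrank L K = finrank F K := Module.finrank_mul_finrank F L K
  have hn0 : 0 < finrank F K := by omega
  have hL3 : finrank F L = p := by
    obtain ⟨m, hm⟩ := hpn
    have hm0 : 0 < m := by
      rcases Nat.eq_zero_or_pos m with h | h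
      · subst h; omega
      · exact h
    have h3 : finrank L K = m := by rw [hL1, hm, Nat.mul_div_cancel_left _ hp.pos]
    rw [h3, hm] at hL2
    exact Nat.eq_of_mul_eq_mul_right hm0 hL2
  obtain ⟨m, hm⟩ := hps
  obtain ⟨ρ, hρL, hρ⟩ : ∃ ρ ∈ L, ρ ∉ Set.range (algebraMap F K) := by
    by_contra hcon
    push Not at hcon
    have h3 : L = ⊥ := by
      rw [eq_bot_iff]
      intro x hx
      rw [IntermediateField.mem_bot]
      exact hcon x hx
    rw [← IntermediateField.finrank_eq_one_iff, hL3] at h3
    exact hp.one_lt.ne' h3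
  obtain ⟨f, hf⟩ : ∃ f : Fin m → K, LinearIndependent L f := by
    refine exists_linearIndependent_of_le_finrank ?_
    rw [hL1, Nat.le_div_iff_mul_le hp.pos, mul_comm, ← hm]
    exact hs'
  let S' : Submodule L K := Submodule.span L (Set.range f)
  let S : Submodule F K := S'.restrictScalars F
  have hS' : finrank L S' = m := by
    have := finrank_span_eq_card hf
    simpa using this
  have hS : finrank F S = s := by
    have h3 : finrank F L * finrank L S' = finrank F S' := Module.finrank_mul_finrank F L S'
    have h4 : finrank F S' = finrank F S := rfl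
    rw [← h4, ← h3, hL3, hS', hm]
  refine ⟨S, Submodule.span F {1, ρ}, hS, two_finrank_pair hρ, ?_⟩
  have hcol : colon S (Submodule.span F {1, ρ}) = S := by
    ext x
    rw [two_colon_span, mul_one]
    constructor
    · exact fun h => h.1
    · intro h
      refine ⟨h, ?_⟩
      have h3 : (⟨ρ, hρL⟩ : L) • x ∈ S' := S'.smul_mem _ h
      rw [mul_comm]
      exact h3
  rw [hcol, hS]

theorem two_exists [Finite F] [FiniteDimensional F K] (hn : 2 ≤ finrank F K) {s j : ℕ}
    (hs : 1 ≤ s) (hs' : s ≤ finrank F K) (h1 : 2 * s ≤ finrank F K + j)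
    (h2 : j < s ∨ (j = s ∧ ¬ Nat.Coprime (finrank F K) s)) : ∃ S T : Submodule F K,
      finrank F S = s ∧ finrank F T = 2 ∧ finrank F (colon S T) = j := by
  rcases h2 with h2 | ⟨rfl, h2⟩
  · exact two_exists_lt hn h1 h2
  · exact two_exists_eq hs' h2 hs

end Pool.Agent.Helper74.CW
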